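import Pool.Agent.Lib_helper52.EPS.P.FIN

/-!
# The strengthened submodularity inequality for entropy powers, up to a factor `e`

The hypotheses are those of the frozen statement `S19397`.
-/

set_option autoImplicit false

open MeasureTheory ProbabilityTheory

/-- Let `X, Y, Z` be independent random vectors in `ℝ^d` with densities such that
`X, Y, Z, X + Z, Y + Z, X + Y + Z` have finite differential entropies, and let
`N(W) = exp (2 h(W) / d)`. Then `N(X+Y+Z) N(Z) / e + N(X) N(Y) ≤ N(X+Z) N(Y+Z)`, and, more precisely,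
`k N(X+Y+Z) N(Z) (N(X) N(Y))^(k-1) ≤ (N(X+Z) N(Y+Z))^k` for every `k ≥ 1`. -/
theorem Pool.Agent.Results.MP_70a3e9_pr.UpToE.result :
    ∀ (d : ℕ), 0 < d →
    ∀ (Ω : Type) [MeasurableSpace Ω] (P : Measure Ω) [IsProbabilityMeasure P]
      (X Y Z : Ω → EuclideanSpace ℝ (Fin d)),
      Measurable X → Measurable Y → Measurable Z →
      iIndepFun ![X, Y, Z] P →
      P.map X ≪ volume → P.map Y ≪ volume → P.map Z ≪ volume →
      ∀ N : (Ω → EuclideanSpace ℝ (Fin d)) → ℝ,
        (∀ W : Ω → EuclideanSpace ℝ (Fin d), N W = Real.exp ((2 / (d : ℝ)) *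
          ∫ x, Real.negMulLog (((P.map W).rnDeriv volume x).toReal))) →
        (∀ W ∈ [X, Y, Z, X + Z, Y + Z, X + Y + Z],
          Integrable (fun x => Real.negMulLog (((P.map W).rnDeriv volume x).toReal)) volume) →
        Real.exp (-1) * (N (X + Y + Z) * N Z) + N X * N Y ≤ N (X + Z) * N (Y + Z) ∧
        ∀ k : ℕ, 1 ≤ k → (k : ℝ) * (N (X + Y + Z) * N Z) * (N X * N Y) ^ (k - 1) ≤
          (N (X + Z) * N (Y + Z)) ^ k := by
  intro d hd Ω _ P _ X Y Z hX hY hZ hI aX aY aZ N hN hint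
  exact Pool.Agent.EPS.eps_final d hd Ω P X Y Z hX hY hZ hI aX aY aZ N hN hint
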